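import Mathlib

open Set TopologicalSpace Topology

namespace Pool.Agent.Results.MP_3a3191_gt.Indecomposable

universe u

/-- A subcontinuum of `S`: a closed connected (nonempty) subset. -/
def IsSubcontinuum {S : Type u} [TopologicalSpace S] (W : Set S) : Prop :=
  IsClosed W ∧ IsConnected W

/-- F. B. Jones's set function `T`. -/
def jonesT {S : Type u} [TopologicalSpace S] (A : Set S) : Set S :=
  univ \ {p : S | ∃ W : Set S, IsSubcontinuum W ∧ p ∈ interior W ∧ W ∩ A = ∅}

/-- `S` is indecomposable: it is not the union of two proper subcontinua. -/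
def IsIndecomposable (S : Type u) [TopologicalSpace S] : Prop :=
  ¬ ∃ A B : Set S, IsSubcontinuum A ∧ IsSubcontinuum B ∧ A ≠ univ ∧ B ≠ univ ∧ A ∪ B = univ

section
variable {S : Type u} [TopologicalSpace S]

theorem mem_jonesT {A : Set S} {q : S} :
    q ∈ jonesT A ↔ ∀ W : Set S, IsClosed W → IsConnected W → q ∈ interior W →
      (W ∩ A).Nonempty := by
  unfold jonesT IsSubcontinuum
  constructor
  · intro h W hW hc hq
    by_contra hne
    rw [Set.not_nonempty_iff_eq_empty] at hne
    exact h.2 ⟨W, ⟨hW, hc⟩, hq, hne⟩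
  · intro h
    refine ⟨mem_univ _, ?_⟩
    rintro ⟨W, ⟨hW, hc⟩, hq, he⟩
    have := h W hW hc hq
    rw [he] at this
    exact Set.not_nonempty_empty this

theorem mem_jonesT_singleton {x q : S} :
    q ∈ jonesT {x} ↔ ∀ W : Set S, IsClosed W → IsConnected W → q ∈ interior W → x ∈ W := by
  rw [mem_jonesT]
  simp only [Set.inter_singleton_nonempty]

theorem isClosed_jonesT (A : Set S) : IsClosed (jonesT A) := by
  rw [← isOpen_compl_iff, isOpen_iff_mem_nhds]
  intro q hq
  rw [mem_compl_iff, mem_jonesT] at hq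
  push Not at hq
  obtain ⟨W, hW, hc, hqW, hne⟩ := hq
  refine Filter.mem_of_superset (isOpen_interior.mem_nhds hqW) ?_
  intro z hz hzT
  rw [mem_jonesT] at hzT
  have := hzT W hW hc hz
  rw [hne] at this
  exact Set.not_nonempty_empty this

/-- The hyperspace of closed subsets of `S` with the Vietoris topology. -/
def Hyper (S : Type u) [TopologicalSpace S] : Type u := {A : Set S // IsClosed A}

instance (S : Type u) [TopologicalSpace S] : TopologicalSpace (Hyper S) :=
  TopologicalSpace.induced (fun A : Hyper S => A.1) (TopologicalSpace.vietoris S)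

/-- `T` as a map of the hyperspace of closed subsets to itself. -/
def hyperT (S : Type u) [TopologicalSpace S] : Hyper S → Hyper S :=
  fun A => ⟨jonesT A.1, isClosed_jonesT A.1⟩

theorem self_mem (x : S) : x ∈ jonesT {x} := by
  rw [mem_jonesT_singleton]
  intro W _ _ hx
  exact interior_subset hx

/-- The relation `z ∈ T(x)` is closed. -/
theorem isClosed_rel : IsClosed {z : S × S | z.2 ∈ jonesT {z.1}} := by
  rw [← isOpen_compl_iff, isOpen_iff_mem_nhds]
  rintro ⟨x, q⟩ hq
  simp only [mem_compl_iff, mem_ofPred_eq, mem_jonesT_singleton] at hq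
  push Not at hq
  obtain ⟨W, hW, hc, hqW, hx⟩ := hq
  have : (Wᶜ ×ˢ interior W) ∈ 𝓝 (x, q) :=
    prod_mem_nhds (hW.isOpen_compl.mem_nhds hx) (isOpen_interior.mem_nhds hqW)
  refine Filter.mem_of_superset this ?_
  rintro ⟨x', q'⟩ ⟨hx', hq'⟩ hT
  simp only [mem_ofPred_eq, mem_jonesT_singleton] at hT
  exact hx' (hT W hW hc hq')

end

section
variable {S : Type u} [TopologicalSpace S] [CompactSpace S] [T2Space S]

/-- Separation of a component from a closed set inside a compact set. -/
theorem exists_sep {K E : Set S} (hK : IsClosed K) (hE : IsClosed E) {y : S} (hy : y ∈ K)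
    (hdis : Disjoint (connectedComponentIn K y) E) :
    ∃ P R : Set S, IsClosed P ∧ IsClosed R ∧ P ∪ R = K ∧ Disjoint P R ∧ y ∈ P ∧ Disjoint P E := by
  have : CompactSpace K := isCompact_iff_compactSpace.mp hK.isCompact
  set y' : K := ⟨y, hy⟩ with hy'
  have hcc : connectedComponentIn K y = (Subtype.val : K → S) '' connectedComponent y' := by
    rw [connectedComponentIn_eq_image hy]
  set E' : Set K := (Subtype.val : K → S) ⁻¹' E with hE'
  have hE'c : IsClosed E' := hE.preimage continuous_subtype_val
  have hsub : ∀ x ∈ ⋂ s : { s : Set K // IsClopen s ∧ y' ∈ s }, (s : Set K), E'ᶜ ∈ 𝓝 x := by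
    intro x hx
    rw [← connectedComponent_eq_iInter_isClopen] at hx
    apply hE'c.isOpen_compl.mem_nhds
    intro hxE
    have : (x : S) ∈ connectedComponentIn K y := by
      rw [hcc]; exact ⟨x, hx, rfl⟩
    exact Set.disjoint_left.mp hdis this hxE
  have hne : Nonempty { s : Set K // IsClopen s ∧ y' ∈ s } := ⟨⟨univ, isClopen_univ, mem_univ _⟩⟩
  obtain ⟨⟨Z, hZ, hyZ⟩, hZE⟩ := exists_subset_nhds_of_compactSpace
    (V := fun s : { s : Set K // IsClopen s ∧ y' ∈ s } => (s : Set K))
    (by
      rintro ⟨s, hs, hys⟩ ⟨t, ht, hyt⟩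
      exact ⟨⟨s ∩ t, hs.inter ht, ⟨hys, hyt⟩⟩, inter_subset_left, inter_subset_right⟩)
    (fun s => s.2.1.isClosed) hsub
  refine ⟨Subtype.val '' Z, Subtype.val '' Zᶜ, ?_, ?_, ?_, ?_, ?_, ?_⟩
  · exact hK.isClosedEmbedding_subtypeVal.isClosedMap _ hZ.isClosed
  · exact hK.isClosedEmbedding_subtypeVal.isClosedMap _ hZ.compl.isClosed
  · rw [← image_union, union_compl_self, image_univ, Subtype.range_coe]
  · rw [Set.disjoint_image_iff Subtype.val_injective]
    exact disjoint_compl_right
  · exact ⟨y', hyZ, rfl⟩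
  · rw [Set.disjoint_left]
    rintro _ ⟨z, hz, rfl⟩ hzE
    exact hZE hz hzE

theorem isClosed_cc {K : Set S} (hK : IsClosed K) (x : S) : IsClosed (connectedComponentIn K x) := by
  by_cases hx : x ∈ K
  · rw [connectedComponentIn_eq_image hx]
    exact hK.isClosedEmbedding_subtypeVal.isClosedMap _ isClosed_connectedComponent
  · rw [connectedComponentIn_eq_empty hx]
    exact isClosed_empty

/-- Boundary bumping. -/
theorem boundary_bumping [PreconnectedSpace S] {Ω : Set S} (hΩ : IsOpen Ω) (hne : Ω ≠ univ)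
    {y : S} (hy : y ∈ closure Ω) :
    (connectedComponentIn (closure Ω) y ∩ frontier Ω).Nonempty := by
  by_contra hcon
  rw [Set.not_nonempty_iff_eq_empty, ← Set.disjoint_iff_inter_eq_empty] at hcon
  obtain ⟨P, R, hP, hR, hPR, hd, hyP, hPf⟩ := exists_sep isClosed_closure isClosed_frontier hy hcon
  have hPΩ : P ⊆ Ω := by
    intro z hz
    have hzc : z ∈ closure Ω := by rw [← hPR]; exact Or.inl hz
    by_contra hzΩ
    have : z ∈ frontier Ω := by
      rw [hΩ.frontier_eq]; exact ⟨hzc, hzΩ⟩
    exact Set.disjoint_left.mp hPf hz this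
  have hPeq : P = Ω ∩ Rᶜ := by
    ext z
    constructor
    · intro hz
      exact ⟨hPΩ hz, fun hzR => Set.disjoint_left.mp hd hz hzR⟩
    · rintro ⟨hz, hzR⟩
      have : z ∈ P ∪ R := by rw [hPR]; exact subset_closure hz
      exact this.resolve_right hzR
  have hPo : IsOpen P := by
    rw [hPeq]; exact hΩ.inter hR.isOpen_compl
  have : IsClopen P := ⟨hP, hPo⟩
  have hu : P = univ := this.eq_univ ⟨y, hyP⟩
  apply hne
  rw [eq_univ_iff_forall]
  intro z
  apply hPΩ
  rw [hu]; exact mem_univ _

theorem isPreconnected_jonesT [PreconnectedSpace S] (x : S) : IsPreconnected (jonesT {x}) := by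
  -- key claim: if `T(x)` is split into `P ∋ x` and `Q`, then `Q` is empty
  have key : ∀ P Q : Set S, IsClosed P → IsClosed Q → Disjoint P Q → jonesT {x} = P ∪ Q →
      x ∈ P → Q = ∅ := by
    intro P Q hP hQ hd hT hxP
    by_contra hQne
    rw [← Ne, ← Set.nonempty_iff_ne_empty] at hQne
    obtain ⟨q, hq⟩ := hQne
    obtain ⟨Ω, hΩo, hQΩ, hΩP⟩ := normal_exists_closure_subset hQ hP.isOpen_compl
      (fun z hz hzP => Set.disjoint_left.mp hd hzP hz)
    have hxΩ : x ∉ closure Ω := fun h => hΩP h hxP
    have hΩne : Ω ≠ univ := by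
      intro h
      exact hxΩ (subset_closure (h ▸ mem_univ x))
    have hfr : ∀ y ∈ frontier Ω, y ∉ jonesT {x} := by
      intro y hy hyT
      rw [hΩo.frontier_eq] at hy
      rw [hT] at hyT
      rcases hyT with h | h
      · exact hΩP hy.1 h
      · exact hy.2 (hQΩ h)
    have hfr' : ∀ y ∈ frontier Ω, ∃ W : Set S, IsClosed W ∧ IsConnected W ∧ y ∈ interior W ∧
        x ∉ W := by
      intro y hy
      have := hfr y hy
      rw [mem_jonesT_singleton] at this
      push Not at this
      exact this
    choose! W hWc hWconn hWi hWx using hfr'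
    obtain ⟨t, ht, htc⟩ := (isClosed_frontier (s := Ω)).isCompact.elim_nhds_subcover
      (fun y => interior (W y)) (fun y hy => isOpen_interior.mem_nhds (hWi y hy))
    -- the closed set `M`
    set M : Set S := closure Ω ∪ ⋃ y ∈ t, W y with hM
    have hMc : IsClosed M := isClosed_closure.union
      (t.finite_toSet.isClosed_biUnion (fun y hy => hWc y (ht y hy)))
    have hxM : x ∉ M := by
      rintro (h | h)
      · exact hxΩ h
      · simp only [mem_iUnion] at h
        obtain ⟨y, hy, hxy⟩ := h
        exact hWx y (ht y hy) hxy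
    have hyM : ∀ y ∈ t, y ∈ M := fun y hy => Or.inl (frontier_subset_closure (ht y hy))
    have hWM : ∀ y ∈ t, W y ⊆ M := by
      intro y hy z hz
      refine Or.inr ?_
      simp only [mem_iUnion]
      exact ⟨y, hy, hz⟩
    have hyW : ∀ y ∈ t, y ∈ W y := fun y hy => interior_subset (hWi y (ht y hy))
    have hcover : ∀ z ∈ M, ∃ y ∈ t, z ∈ connectedComponentIn M y := by
      rintro z (hz | hz)
      · obtain ⟨w, hw, hwf⟩ := boundary_bumping hΩo hΩne hz
        have hw' := htc hwf
        simp only [mem_iUnion] at hw'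
        obtain ⟨y, hy, hwy⟩ := hw'
        refine ⟨y, hy, ?_⟩
        have hC : IsPreconnected (connectedComponentIn (closure Ω) z ∪ W y) :=
          IsPreconnected.union w hw (interior_subset hwy) isPreconnected_connectedComponentIn
            (hWconn y (ht y hy)).isPreconnected
        have hCM : connectedComponentIn (closure Ω) z ∪ W y ⊆ M := by
          apply union_subset _ (hWM y hy)
          exact (connectedComponentIn_subset _ _).trans subset_union_left
        exact hC.subset_connectedComponentIn (Or.inr (hyW y hy)) hCM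
          (Or.inl (mem_connectedComponentIn hz))
      · simp only [mem_iUnion] at hz
        obtain ⟨y, hy, hzy⟩ := hz
        exact ⟨y, hy, (hWconn y (ht y hy)).isPreconnected.subset_connectedComponentIn
          (hyW y hy) (hWM y hy) hzy⟩
    have hqM : q ∈ M := Or.inl (subset_closure (hQΩ hq))
    set D : Set S := connectedComponentIn M q with hD
    have hDc : IsClosed D := isClosed_cc hMc _
    have hDconn : IsConnected D := isConnected_connectedComponentIn_iff.mpr hqM
    have hDx : x ∉ D := fun h => hxM (connectedComponentIn_subset _ _ h)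
    -- a neighbourhood of `q` inside `D`
    classical
    set t' : Finset S := t.filter (fun y => q ∉ connectedComponentIn M y) with ht'
    have hNo : IsOpen (Ω \ ⋃ y ∈ t', connectedComponentIn M y) := by
      apply hΩo.sdiff
      exact t'.finite_toSet.isClosed_biUnion (fun y _ => isClosed_cc hMc _)
    have hqN : q ∈ Ω \ ⋃ y ∈ t', connectedComponentIn M y := by
      refine ⟨hQΩ hq, ?_⟩
      simp only [mem_iUnion, not_exists]
      intro y hy
      exact (Finset.mem_filter.mp hy).2
    have hND : Ω \ ⋃ y ∈ t', connectedComponentIn M y ⊆ D := by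
      rintro z ⟨hz, hzn⟩
      obtain ⟨y, hy, hzy⟩ := hcover z (Or.inl (subset_closure hz))
      have hqy : q ∈ connectedComponentIn M y := by
        by_contra hqy
        apply hzn
        simp only [mem_iUnion]
        exact ⟨y, Finset.mem_filter.mpr ⟨hy, hqy⟩, hzy⟩
      rw [hD, ← connectedComponentIn_eq hqy]
      exact hzy
    have hqi : q ∈ interior D := mem_interior.mpr ⟨_, hND, hNo, hqN⟩
    have hqT : q ∈ jonesT {x} := by rw [hT]; exact Or.inr hq
    rw [mem_jonesT_singleton] at hqT
    exact hDx (hqT D hDc hDconn hqi)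
  rw [isPreconnected_closed_iff]
  intro a b ha hb hab hna hnb
  by_contra hcon
  rw [Set.not_nonempty_iff_eq_empty] at hcon
  have hTc := isClosed_jonesT (S := S) {x}
  have hd : Disjoint (jonesT {x} ∩ a) (jonesT {x} ∩ b) := by
    rw [Set.disjoint_left]
    rintro z ⟨hz, hza⟩ ⟨_, hzb⟩
    have : z ∈ jonesT {x} ∩ (a ∩ b) := ⟨hz, hza, hzb⟩
    rw [hcon] at this
    exact this
  have hu : jonesT {x} = (jonesT {x} ∩ a) ∪ (jonesT {x} ∩ b) := by
    rw [← inter_union_distrib_left, eq_comm, inter_eq_left]
    exact hab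
  rcases hab (self_mem x) with hxa | hxb
  · have := key _ _ (hTc.inter ha) (hTc.inter hb) hd hu ⟨self_mem x, hxa⟩
    rw [this] at hnb
    exact Set.not_nonempty_empty hnb
  · have := key _ _ (hTc.inter hb) (hTc.inter ha) hd.symm (by rw [union_comm]; exact hu)
      ⟨self_mem x, hxb⟩
    rw [this] at hna
    exact Set.not_nonempty_empty hna

/-- Lower semicontinuity of `x ↦ T(x)`. -/
def LSC (S : Type u) [TopologicalSpace S] : Prop :=
  ∀ G : Set S, IsOpen G → IsOpen {x : S | (jonesT {x} ∩ G).Nonempty}

theorem not_mem_interior (hl : LSC S) {W : Set S} (hW : IsClosed W) (hc : IsConnected W)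
    {x : S} (hx : x ∉ interior W) : ¬ (jonesT {x} ∩ interior W).Nonempty := by
  have h1 : IsOpen {x : S | (jonesT {x} ∩ interior W).Nonempty} := hl _ isOpen_interior
  have h2 : Wᶜ ⊆ {x : S | (jonesT {x} ∩ interior W).Nonempty}ᶜ := by
    rintro z hz ⟨q, hq, hqW⟩
    rw [mem_jonesT_singleton] at hq
    exact hz (hq W hW hc hqW)
  have h3 : closure Wᶜ ⊆ {x : S | (jonesT {x} ∩ interior W).Nonempty}ᶜ :=
    closure_minimal h2 h1.isClosed_compl
  rw [closure_compl] at h3
  exact h3 hx

theorem trans_mem (hl : LSC S) {x y z : S} (hy : y ∈ jonesT {x}) (hz : z ∈ jonesT {y}) :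
    z ∈ jonesT {x} := by
  rw [mem_jonesT_singleton]
  intro W hW hc hzW
  by_contra hx
  have hyi : y ∉ interior W := by
    intro hyW
    rw [mem_jonesT_singleton] at hy
    exact hx (hy W hW hc hyW)
  exact not_mem_interior hl hW hc hyi ⟨z, hz, hzW⟩

theorem subset_of_mem (hl : LSC S) {x y : S} (hy : y ∈ jonesT {x}) :
    jonesT {y} ⊆ jonesT {x} := fun _ hz => trans_mem hl hy hz

/-- The set of `b` such that `T(b)` meets a closed set is closed. -/
theorem isClosed_meet {P : Set S} (hP : IsClosed P) :
    IsClosed {b : S | (jonesT {b} ∩ P).Nonempty} := by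
  have h1 : IsClosed ({z : S × S | z.2 ∈ jonesT {z.1}} ∩ (univ ×ˢ P)) :=
    isClosed_rel.inter (isClosed_univ.prod hP)
  have h2 : IsClosed (Prod.fst '' ({z : S × S | z.2 ∈ jonesT {z.1}} ∩ (univ ×ˢ P))) :=
    (h1.isCompact.image continuous_fst).isClosed
  convert h2 using 1
  ext b
  constructor
  · rintro ⟨q, hq, hqP⟩
    exact ⟨(b, q), ⟨hq, mem_univ _, hqP⟩, rfl⟩
  · rintro ⟨⟨b', q⟩, ⟨hq, _, hqP⟩, rfl⟩
    exact ⟨q, hq, hqP⟩

theorem isClosed_union_T {E : Set S} (hE : IsClosed E) :
    IsClosed (⋃ y ∈ E, jonesT {y}) := by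
  have h1 : IsClosed ({z : S × S | z.2 ∈ jonesT {z.1}} ∩ (E ×ˢ univ)) :=
    isClosed_rel.inter (hE.prod isClosed_univ)
  have h2 : IsClosed (Prod.snd '' ({z : S × S | z.2 ∈ jonesT {z.1}} ∩ (E ×ˢ univ))) :=
    (h1.isCompact.image continuous_snd).isClosed
  convert h2 using 1
  ext q
  simp only [mem_iUnion]
  constructor
  · rintro ⟨y, hy, hq⟩
    exact ⟨(y, q), ⟨hq, hy, mem_univ _⟩, rfl⟩
  · rintro ⟨⟨y, q'⟩, ⟨hq, hy, _⟩, rfl⟩
    exact ⟨y, hy, hq⟩

theorem isConnected_jonesT [PreconnectedSpace S] (x : S) : IsConnected (jonesT {x}) :=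
  ⟨⟨x, self_mem x⟩, isPreconnected_jonesT x⟩

/-- A connected set contained in the disjoint union of two closed sets and meeting the first is
contained in the first. -/
theorem subset_of_split {P R C : Set S} (hP : IsClosed P) (hR : IsClosed R) (hd : Disjoint P R)
    (hC : IsPreconnected C) (hCu : C ⊆ P ∪ R) {x : S} (hx : x ∈ C) (hxP : x ∈ P) : C ⊆ P := by
  have hcap : C ∩ (P ∩ R) = ∅ := by
    rw [Set.disjoint_iff_inter_eq_empty.mp hd, inter_empty]
  rcases isPreconnected_iff_subset_of_disjoint_closed.mp hC P R hP hR hCu hcap with h | h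
  · exact h
  · exact absurd (h hx) (fun h' => Set.disjoint_left.mp hd hxP h')

theorem main_lsc [ConnectedSpace S] (hl : LSC S) (p : S)
    (hint : (interior (jonesT {p})).Nonempty) : ∀ x : S, jonesT {x} = univ := by
  set U : Set S := interior (jonesT {p}) with hU
  have hUT : U ⊆ jonesT {p} := interior_subset
  have hout : ∀ x, x ∉ U → ¬ (jonesT {x} ∩ U).Nonempty := fun x hx =>
    not_mem_interior hl (isClosed_jonesT _) (isConnected_jonesT p) hx
  have hpU : p ∈ U := by
    by_contra h
    obtain ⟨z, hz⟩ := hint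
    exact hout p h ⟨z, hUT hz, hz⟩
  -- continua missing `p` have no interior in `U`
  have hnoint : ∀ C : Set S, IsClosed C → IsConnected C → p ∉ C → ∀ z ∈ U, z ∉ interior C := by
    intro C hC hCc hpC z hz hzC
    have := hUT hz
    rw [mem_jonesT_singleton] at this
    exact hpC (this C hC hCc hzC)
  set Γ : Set S := {x | p ∈ jonesT {x}} with hΓ
  have hΓc : IsClosed Γ := by
    have : Continuous (fun x : S => (x, p)) := by fun_prop
    exact isClosed_rel.preimage this
  have hpΓ : p ∈ Γ := self_mem p
  have hΓT : ∀ x ∈ Γ, jonesT {p} ⊆ jonesT {x} := fun x hx => subset_of_mem hl hx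
  have hUΓ : U ⊆ Γ := by
    intro u hu
    by_contra huΓ
    -- for each open `G ⊇ Γ` with `u ∉ closure G` there is `β` with `T(β) ⊆ closure G`
    have step : ∀ G : Set S, IsOpen G → Γ ⊆ G → u ∉ closure G →
        ∃ β : S, jonesT {β} ⊆ closure G := by
      intro G hG hΓG huG
      set F : Set S := ⋃ y ∈ Gᶜ, jonesT {y} with hF
      have hFc : IsClosed F := isClosed_union_T hG.isClosed_compl
      have hFT : ∀ b ∈ F, jonesT {b} ⊆ F := by
        intro b hb
        simp only [hF, mem_iUnion] at hb
        obtain ⟨y, hy, hby⟩ := hb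
        intro z hz
        simp only [hF, mem_iUnion]
        exact ⟨y, hy, trans_mem hl hby hz⟩
      have hpF : p ∉ F := by
        intro h
        simp only [hF, mem_iUnion] at h
        obtain ⟨y, hy, hpy⟩ := h
        exact hy (hΓG hpy)
      have hGF : Gᶜ ⊆ F := by
        intro y hy
        simp only [hF, mem_iUnion]
        exact ⟨y, hy, self_mem y⟩
      have hN : (closure G)ᶜ ⊆ F := (compl_subset_compl.mpr subset_closure).trans hGF
      have huF : u ∈ F := hN huG
      have hDc : IsClosed (connectedComponentIn F u) := isClosed_cc hFc _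
      have hDconn : IsConnected (connectedComponentIn F u) :=
        isConnected_connectedComponentIn_iff.mpr huF
      have hpD : p ∉ connectedComponentIn F u := fun h => hpF (connectedComponentIn_subset _ _ h)
      obtain ⟨v, hvN, hvD⟩ : ∃ v, v ∈ (closure G)ᶜ ∩ U ∧ v ∉ connectedComponentIn F u := by
        by_contra hcon
        push Not at hcon
        apply hnoint _ hDc hDconn hpD u hu
        exact mem_interior.mpr ⟨(closure G)ᶜ ∩ U, fun z hz => hcon z hz,
          isClosed_closure.isOpen_compl.inter isOpen_interior, ⟨huG, hu⟩⟩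
      obtain ⟨P, R, hP, hR, hPR, hd, huP, hPv⟩ := exists_sep hFc (isClosed_singleton (x := v)) huF
        (by rw [Set.disjoint_singleton_right]; exact hvD)
      have hvP : v ∉ P := by rwa [Set.disjoint_singleton_right] at hPv
      have hvR : v ∈ R := by
        have : v ∈ P ∪ R := by rw [hPR]; exact hN hvN.1
        exact this.resolve_left hvP
      set E : Set S := P ∩ (closure G)ᶜ with hE
      have hEo : IsOpen E := by
        have : E = (closure G)ᶜ ∩ Rᶜ := by
          ext z
          constructor
          · rintro ⟨hz, hzG⟩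
            exact ⟨hzG, fun hzR => Set.disjoint_left.mp hd hz hzR⟩
          · rintro ⟨hzG, hzR⟩
            have : z ∈ P ∪ R := by rw [hPR]; exact hN hzG
            exact ⟨this.resolve_right hzR, hzG⟩
        rw [this]
        exact isClosed_closure.isOpen_compl.inter hR.isOpen_compl
      have hTP : ∀ b ∈ P, jonesT {b} ⊆ P := by
        intro b hb
        refine subset_of_split hP hR hd (isPreconnected_jonesT b) ?_ (self_mem b) hb
        rw [hPR]
        exact hFT b (by rw [← hPR]; exact Or.inl hb)
      have hTR : ∀ b ∈ R, jonesT {b} ⊆ R := by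
        intro b hb
        refine subset_of_split hR hP hd.symm (isPreconnected_jonesT b) ?_ (self_mem b) hb
        rw [union_comm, hPR]
        exact hFT b (by rw [← hPR]; exact Or.inr hb)
      by_contra hcon
      push Not at hcon
      have hmeet : ∀ b ∈ P, (jonesT {b} ∩ E).Nonempty := by
        intro b hb
        obtain ⟨z, hz, hzG⟩ := Set.not_subset.mp (hcon b)
        exact ⟨z, hz, hTP b hb hz, hzG⟩
      have hH : {b : S | (jonesT {b} ∩ E).Nonempty} = {b : S | (jonesT {b} ∩ P).Nonempty} := by
        ext g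
        constructor
        · rintro ⟨z, hz, hzE⟩
          exact ⟨z, hz, hzE.1⟩
        · rintro ⟨β, hβ, hβP⟩
          obtain ⟨z, hz, hzE⟩ := hmeet β hβP
          exact ⟨z, trans_mem hl hβ hz, hzE⟩
      have hclopen : IsClopen {b : S | (jonesT {b} ∩ E).Nonempty} :=
        ⟨by rw [hH]; exact isClosed_meet hP, hl E hEo⟩
      have huniv := hclopen.eq_univ ⟨u, u, self_mem u, huP, huG⟩
      have hv : v ∈ {b : S | (jonesT {b} ∩ E).Nonempty} := by rw [huniv]; exact mem_univ v
      obtain ⟨z, hz, hzE⟩ := hv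
      exact Set.disjoint_left.mp hd hzE.1 (hTR v hvR hz)
    -- compactness
    obtain ⟨G₀, hG₀, hΓG₀, hG₀u⟩ := normal_exists_closure_subset hΓc
      (isClosed_singleton (x := u)).isOpen_compl (fun z hz hzu => huΓ (by
        rw [mem_singleton_iff] at hzu; rw [← hzu]; exact hz))
    let ι := {G : Set S // IsOpen G ∧ Γ ⊆ G ∧ u ∉ closure G}
    have : Nonempty ι := ⟨⟨G₀, hG₀, hΓG₀, fun h => hG₀u h rfl⟩⟩
    have hKc : ∀ i : ι, IsClosed {β : S | jonesT {β} ⊆ closure i.1} := by
      intro i
      have : {β : S | jonesT {β} ⊆ closure i.1} =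
          {β : S | (jonesT {β} ∩ (closure i.1)ᶜ).Nonempty}ᶜ := by
        ext β
        simp only [mem_compl_iff, mem_ofPred_eq]
        rw [Set.not_nonempty_iff_eq_empty, ← Set.disjoint_iff_inter_eq_empty,
          Set.disjoint_compl_right_iff_subset]
      rw [this]
      exact (hl _ isClosed_closure.isOpen_compl).isClosed_compl
    have hKne : (⋂ i : ι, {β : S | jonesT {β} ⊆ closure i.1}).Nonempty := by
      apply IsCompact.nonempty_iInter_of_directed_nonempty_isCompact_isClosed
      · rintro ⟨G₁, h₁, h₁Γ, h₁u⟩ ⟨G₂, h₂, h₂Γ, h₂u⟩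
        refine ⟨⟨G₁ ∩ G₂, h₁.inter h₂, subset_inter h₁Γ h₂Γ,
          fun h => h₁u (closure_mono inter_subset_left h)⟩, ?_, ?_⟩
        · intro β hβ
          exact hβ.trans (closure_mono inter_subset_left)
        · intro β hβ
          exact hβ.trans (closure_mono inter_subset_right)
      · rintro ⟨G, h, hΓG, huG⟩
        obtain ⟨β, hβ⟩ := step G h hΓG huG
        exact ⟨β, hβ⟩
      · intro i; exact (hKc i).isCompact
      · exact hKc
    obtain ⟨β, hβ⟩ := hKne
    rw [mem_iInter] at hβ
    have hβΓ : jonesT {β} ⊆ Γ := by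
      intro z hz
      by_contra hzΓ
      have hcl : IsClosed ({z, u} : Set S) := (Set.toFinite _).isClosed
      obtain ⟨G, hG, hΓG, hGz⟩ := normal_exists_closure_subset hΓc hcl.isOpen_compl (by
        intro w hw hw'
        rcases hw' with rfl | hw'
        · exact hzΓ hw
        · rw [mem_singleton_iff] at hw'
          exact huΓ (by rw [← hw']; exact hw))
      have hzG : z ∉ closure G := fun h => hGz h (Or.inl rfl)
      have huG : u ∉ closure G := fun h => hGz h (Or.inr rfl)
      exact hzG (hβ ⟨G, hG, hΓG, huG⟩ hz)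
    have : p ∈ jonesT {β} := hβΓ (self_mem β)
    exact huΓ (hβΓ (hΓT β this (hUT hu)))
  have hUclosed : IsClosed U := by
    rw [← closure_subset_iff_isClosed]
    intro b hb
    by_contra hbU
    have hbΓ : b ∈ Γ := closure_minimal hUΓ hΓc hb
    exact hout b hbU ⟨p, hbΓ, hpU⟩
  have hUcl : IsClopen U := ⟨hUclosed, isOpen_interior⟩
  have hUuniv : U = univ := hUcl.eq_univ hint
  have hTp : jonesT {p} = univ := by
    rw [eq_univ_iff_forall]; intro z
    exact hUT (by rw [hUuniv]; exact mem_univ z)
  intro x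
  have hx : x ∈ Γ := hUΓ (by rw [hUuniv]; exact mem_univ x)
  have := hΓT x hx
  rw [hTp] at this
  exact univ_subset_iff.mp this

theorem indecomposable_of_T [ConnectedSpace S] (h : ∀ x : S, jonesT {x} = univ) :
    IsIndecomposable S := by
  rintro ⟨A, B, ⟨hA, hAc⟩, ⟨hB, hBc⟩, hA1, hB1, hAB⟩
  obtain ⟨x, hx⟩ := (Set.ne_univ_iff_exists_notMem A).mp hA1
  obtain ⟨z, hz⟩ := (Set.ne_univ_iff_exists_notMem B).mp hB1
  have hzA : z ∈ interior A := by
    refine mem_interior.mpr ⟨Bᶜ, ?_, hB.isOpen_compl, hz⟩
    intro w hw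
    have : w ∈ A ∪ B := by rw [hAB]; exact mem_univ w
    exact this.resolve_right hw
  have hzT : z ∈ jonesT {x} := by rw [h x]; exact mem_univ z
  rw [mem_jonesT_singleton] at hzT
  exact hx (hzT A hA hAc hzA)

/-- The singletons as points of the hyperspace. -/
def sing (x : S) : Hyper S := ⟨{x}, isClosed_singleton⟩

theorem continuous_sing : Continuous (sing : S → Hyper S) := by
  have h : ∀ t ∈ (powerset '' {U : Set S | IsOpen U} ∪
      (fun V : Set S => {s : Set S | (s ∩ V).Nonempty}) '' {V : Set S | IsOpen V}),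
      IsOpen ((fun x : S => ({x} : Set S)) ⁻¹' t) := by
    rintro _ (⟨V, hV, rfl⟩ | ⟨V, hV, rfl⟩)
    · convert (show IsOpen V from hV) using 1
      ext x
      simp
    · convert (show IsOpen V from hV) using 1
      ext x
      simp
  have h2 : @Continuous S (Set S) _ (TopologicalSpace.vietoris S) (fun x : S => ({x} : Set S)) :=
    continuous_generateFrom_iff.mpr h
  exact continuous_induced_rng.mpr h2

theorem isOpen_hyper {G : Set S} (hG : IsOpen G) :
    IsOpen {A : Hyper S | (A.1 ∩ G).Nonempty} := by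
  refine ⟨{s : Set S | (s ∩ G).Nonempty}, ?_, rfl⟩
  exact TopologicalSpace.vietoris.isOpen_inter_nonempty_of_isOpen hG

theorem lsc_of_continuous (hT : Continuous (hyperT S)) : LSC S := by
  intro G hG
  exact (isOpen_hyper hG).preimage (hT.comp continuous_sing)

end

/-- **Main theorem.** Let `S` be a continuum (compact connected Hausdorff space).
(1) If Jones's set function `T` is continuous for `S` and `T(p)` has nonempty interior for some
point `p`, then `S` is indecomposable.
(2) It is enough that `x ↦ T({x})` is lower semicontinuous. -/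
theorem result :
    (∀ (S : Type u) [TopologicalSpace S] [CompactSpace S] [T2Space S] [ConnectedSpace S],
      Continuous (hyperT S) → ∀ p : S, (interior (jonesT {p})).Nonempty → IsIndecomposable S) ∧
    (∀ (S : Type u) [TopologicalSpace S] [CompactSpace S] [T2Space S] [ConnectedSpace S],
      (∀ G : Set S, IsOpen G → IsOpen {x : S | (jonesT {x} ∩ G).Nonempty}) →
        ∀ p : S, (interior (jonesT {p})).Nonempty → IsIndecomposable S) := by
  refine ⟨?_, ?_⟩
  · intro S _ _ _ _ hT p hp
    exact indecomposable_of_T (main_lsc (lsc_of_continuous hT) p hp)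
  · intro S _ _ _ _ hl p hp
    exact indecomposable_of_T (main_lsc hl p hp)

end Pool.Agent.Results.MP_3a3191_gt.Indecomposable
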